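import Pool.Agent.H31.MP.Basic

/-!
# Row QO of the board `mtp_modules` (MP_76b9e7_nt)
-/

set_option autoImplicit false

open Finset Real
open scoped Nat

namespace Pool.Agent.H35.MTP

open Pool.Agent.H31.MP

/-- pairs of subsets -/
theorem pairs (a : ℕ → ℝ) (P : Finset ℕ) :
    ∑ S ∈ P.powerset, ∑ T ∈ P.powerset, ∏ p ∈ S ∪ T, a p = ∏ p ∈ P, (1 + 3 * a p) := by
  induction P using Finset.induction_on with
  | empty => simp
  | insert x s hx ih =>
    rw [Finset.prod_insert hx, ← ih, Finset.sum_powerset_insert hx, Finset.mul_sum,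
      ← Finset.sum_add_distrib]
    refine Finset.sum_congr rfl fun S hS => ?_
    rw [Finset.sum_powerset_insert hx, Finset.sum_powerset_insert hx, ← Finset.sum_add_distrib,
      ← Finset.sum_add_distrib, ← Finset.sum_add_distrib, Finset.mul_sum]
    refine Finset.sum_congr rfl fun T hT => ?_
    have hn : x ∉ S ∪ T := by
      rw [Finset.mem_union]
      rintro (h | h)
      · exact hx (Finset.mem_powerset.1 hS h)
      · exact hx (Finset.mem_powerset.1 hT h)
    rw [Finset.insert_union, Finset.insert_union, Finset.union_insert, Finset.insert_idem,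
      Finset.prod_insert hn]
    ring

theorem pairs_mem (a : ℕ → ℝ) (s : Finset ℕ) (x : ℕ) (hx : x ∉ s) :
    ∑ S ∈ (insert x s).powerset, ∑ T ∈ (insert x s).powerset,
      (if x ∈ S ∪ T then ∏ p ∈ S ∪ T, a p else 0) = 3 * a x * ∏ p ∈ s, (1 + 3 * a p) := by
  rw [← pairs, Finset.sum_powerset_insert hx, Finset.mul_sum, ← Finset.sum_add_distrib]
  refine Finset.sum_congr rfl fun S hS => ?_
  rw [Finset.sum_powerset_insert hx, Finset.sum_powerset_insert hx, ← Finset.sum_add_distrib,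
    ← Finset.sum_add_distrib, ← Finset.sum_add_distrib, Finset.mul_sum]
  refine Finset.sum_congr rfl fun T hT => ?_
  have hn : x ∉ S ∪ T := by
    rw [Finset.mem_union]
    rintro (h | h)
    · exact hx (Finset.mem_powerset.1 hS h)
    · exact hx (Finset.mem_powerset.1 hT h)
  rw [Finset.insert_union, Finset.insert_union, Finset.union_insert, Finset.insert_idem,
    if_neg hn, if_pos (Finset.mem_insert_self _ _), Finset.prod_insert hn]
  ring

/-- the primes in `(z, X]` -/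
noncomputable def PP (z X : ℝ) : Finset ℕ :=
  (Icc 1 ⌊X⌋₊).filter fun p => p.Prime ∧ z < (p : ℝ)

theorem mem_RS {z Y : ℝ} {u : ℕ} (h : u ∈ RS z Y) :
    u ≠ 0 ∧ u ≤ ⌊Y⌋₊ ∧ Squarefree u ∧ ∀ p : ℕ, p.Prime → p ∣ u → z < (p : ℝ) := by
  classical
  unfold RS at h
  rw [Finset.mem_filter, Finset.mem_Icc] at h
  exact ⟨by omega, h.1.2, h.2.1, h.2.2⟩

theorem pf_sub {z X : ℝ} {u : ℕ} (h : u ∈ RS z X) : u.primeFactors ⊆ PP z X := by
  obtain ⟨h0, h1, _, h3⟩ := mem_RS h
  intro p hp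
  have hpp := Nat.prime_of_mem_primeFactors hp
  have hpd := Nat.dvd_of_mem_primeFactors hp
  unfold PP
  rw [Finset.mem_filter, Finset.mem_Icc]
  exact ⟨⟨hpp.one_lt.le, (Nat.le_of_dvd (Nat.pos_of_ne_zero h0) hpd).trans h1⟩, hpp,
    h3 p hpp hpd⟩

theorem pf_inj (z X : ℝ) : Set.InjOn Nat.primeFactors (RS z X : Set ℕ) := by
  intro u hu v hv huv
  have h1 := Nat.prod_primeFactors_of_squarefree (mem_RS hu).2.2.1
  have h2 := Nat.prod_primeFactors_of_squarefree (mem_RS hv).2.2.1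
  rw [← h1, ← h2, huv]

theorem sum_RS_le (z X : ℝ) (g : Finset ℕ → ℝ) (hg : ∀ S ⊆ PP z X, 0 ≤ g S) :
    ∑ u ∈ RS z X, g u.primeFactors ≤ ∑ S ∈ (PP z X).powerset, g S := by
  rw [← Finset.sum_image (f := g) (pf_inj z X)]
  refine Finset.sum_le_sum_of_subset_of_nonneg ?_ fun S hS _ => hg S (Finset.mem_powerset.1 hS)
  intro S hS
  rw [Finset.mem_image] at hS
  obtain ⟨u, hu, rfl⟩ := hS
  exact Finset.mem_powerset.2 (pf_sub hu)

theorem pf_lcm {u v : ℕ} (hu : u ≠ 0) (hv : v ≠ 0) :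
    (Nat.lcm u v).primeFactors = u.primeFactors ∪ v.primeFactors := by
  ext p
  rw [Finset.mem_union, Nat.mem_primeFactors, Nat.mem_primeFactors, Nat.mem_primeFactors]
  constructor
  · rintro ⟨h1, h2, _⟩
    have h3 : p ∣ u * v := h2.trans (Nat.lcm_dvd (Dvd.intro _ rfl) (Dvd.intro_left _ rfl))
    rcases h1.dvd_mul.1 h3 with h | h
    · exact Or.inl ⟨h1, h, hu⟩
    · exact Or.inr ⟨h1, h, hv⟩
  · rintro (⟨h1, h2, _⟩ | ⟨h1, h2, _⟩)
    · exact ⟨h1, h2.trans (Nat.dvd_lcm_left u v), Nat.lcm_ne_zero hu hv⟩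
    · exact ⟨h1, h2.trans (Nat.dvd_lcm_right u v), Nat.lcm_ne_zero hu hv⟩

theorem lcm_le {z X : ℝ} {u v : ℕ} (hu : u ∈ RS z X) (hv : v ∈ RS z X) :
    1 / (Nat.lcm u v : ℝ) ≤ ∏ p ∈ u.primeFactors ∪ v.primeFactors, (1 / (p : ℝ)) := by
  have h1 := pf_lcm (mem_RS hu).1 (mem_RS hv).1
  have h2 := Nat.prod_primeFactors_dvd (Nat.lcm u v)
  have h3 := Nat.le_of_dvd (Nat.lcm_pos (Nat.pos_of_ne_zero (mem_RS hu).1)
    (Nat.pos_of_ne_zero (mem_RS hv).1)) h2
  rw [← h1, Finset.prod_div_distrib, Finset.prod_const_one]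
  have h4 : ((∏ p ∈ (Nat.lcm u v).primeFactors, p : ℕ) : ℝ) ≤ (Nat.lcm u v : ℝ) := by
    exact_mod_cast h3
  rw [Nat.cast_prod] at h4
  apply one_div_le_one_div_of_le _ h4
  apply Finset.prod_pos
  intro p hp
  exact_mod_cast (Nat.prime_of_mem_primeFactors hp).pos

theorem tot_eq {u : ℕ} (h : Squarefree u) : (u.totient : ℝ) = ∏ p ∈ u.primeFactors,
    ((p : ℝ) - 1) := by
  have h1 := Nat.totient_mul_prod_primeFactors u
  rw [Nat.prod_primeFactors_of_squarefree h] at h1
  have h0 : 0 < u := Nat.pos_of_ne_zero h.ne_zero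
  have h2 : u.totient = ∏ p ∈ u.primeFactors, (p - 1) := by
    rw [mul_comm] at h1
    exact Nat.eq_of_mul_eq_mul_left h0 h1
  rw [h2, Nat.cast_prod]
  refine Finset.prod_congr rfl fun p hp => ?_
  rw [Nat.cast_sub (Nat.prime_of_mem_primeFactors hp).one_lt.le, Nat.cast_one]

theorem fac_pos {p : ℕ} (hp : p.Prime) : 0 < 1 - 1 / (p : ℝ) := by
  have h : (1 : ℝ) < p := by exact_mod_cast hp.one_lt
  rw [sub_pos, div_lt_one (by linarith)]
  exact h

theorem Me_pos (x : ℝ) : 0 < Me x := by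
  unfold Me
  exact Finset.prod_pos fun p hp => fac_pos (Finset.mem_filter.1 hp).2

theorem Me_le_one (x : ℝ) : Me x ≤ 1 := by
  unfold Me
  refine Finset.prod_le_one (fun p hp => (fac_pos (Finset.mem_filter.1 hp).2).le) ?_
  intro p _
  have : (0 : ℝ) ≤ 1 / (p : ℝ) := by positivity
  linarith

theorem Me_split {z X : ℝ} (hz : 0 ≤ z) (h : z ≤ X) :
    Me X = Me z * ∏ p ∈ PP z X, (1 - 1 / (p : ℝ)) := by
  unfold Me PP
  rw [← Finset.prod_union]
  · refine Finset.prod_congr ?_ fun _ _ => rfl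
    ext p
    rw [Finset.mem_union, Finset.mem_filter, Finset.mem_filter, Finset.mem_filter,
      Finset.mem_Icc, Finset.mem_Icc]
    constructor
    · rintro ⟨⟨h1, h2⟩, h3⟩
      by_cases hp : z < (p : ℝ)
      · exact Or.inr ⟨⟨h1, h2⟩, h3, hp⟩
      · exact Or.inl ⟨⟨h1, Nat.le_floor (not_lt.1 hp)⟩, h3⟩
    · rintro (⟨⟨h1, h2⟩, h3⟩ | ⟨⟨h1, h2⟩, h3, _⟩)
      · exact ⟨⟨h1, h2.trans (Nat.floor_le_floor h)⟩, h3⟩
      · exact ⟨⟨h1, h2⟩, h3⟩
  · rw [Finset.disjoint_left]
    intro p hp hp'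
    rw [Finset.mem_filter, Finset.mem_Icc] at hp
    rw [Finset.mem_filter] at hp'
    have h1 : (p : ℝ) ≤ z := (Nat.cast_le.2 hp.1.2).trans (Nat.floor_le hz)
    linarith [hp'.2.2]

theorem pf_QO (hMR : T_MR) : T_QO := by
  classical
  intro δ hδ
  obtain ⟨c, C, hc, hC, hM⟩ := hMR
  set M : ℝ := 1 + C / (c * δ) + Real.log 2 / (c * δ) with hMdef
  have hl2 : 0 < Real.log 2 := Real.log_pos (by norm_num)
  have hM1 : 1 ≤ M := by
    have h1 : 0 ≤ C / (c * δ) := by positivity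
    have h2 : 0 ≤ Real.log 2 / (c * δ) := by positivity
    linarith
  refine ⟨3 * M ^ 3, by positivity, ?_⟩
  intro X hX
  have hX0 : 0 < X := by linarith
  set z := X ^ δ with hz
  have hz0 : 0 < z := Real.rpow_pos_of_pos hX0 δ
  have hlX : 0 < Real.log X := Real.log_pos (by linarith)
  have hlz : Real.log z = δ * Real.log X := Real.log_rpow hX0 δ
  have prP : ∀ p ∈ PP z X, p.Prime := fun p hp => (Finset.mem_filter.1 hp).2.1
  -- the product over the primes in `(z, X]`
  set W := ∏ p ∈ PP z X, (1 - 1 / (p : ℝ))⁻¹ with hW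
  have hWM : W ≤ M := by
    by_cases hzX : z ≤ X
    · have h1 := Me_split hz0.le hzX
      have h2 : W = Me z / Me X := by
        rw [hW, Finset.prod_inv_distrib, h1]
        have hp : 0 < ∏ p ∈ PP z X, (1 - 1 / (p : ℝ)) :=
          Finset.prod_pos fun p hp => fac_pos (prP p hp)
        have hm := Me_pos z
        field_simp
      have h3 : 1 / Me X ≤ Real.log X / c := by
        have h4 := (hM X hX).1
        rw [div_le_div_iff₀ (Me_pos X) hc]
        rw [div_le_iff₀ hlX] at h4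
        linarith
      have hme := Me_pos z
      have hmX := Me_pos X
      by_cases hz2 : 2 ≤ z
      · have h4 := (hM z hz2).2
        rw [hlz] at h4
        have h5 : W ≤ C / (δ * Real.log X) * (Real.log X / c) := by
          rw [h2, div_eq_mul_one_div]
          exact mul_le_mul h4 h3 (by positivity) (by positivity)
        have h6 : C / (δ * Real.log X) * (Real.log X / c) = C / (c * δ) := by
          field_simp
        have h7 : 0 ≤ Real.log 2 / (c * δ) := by positivity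
        rw [h6] at h5
        linarith
      · have h4 : Real.log z ≤ Real.log 2 := Real.log_le_log hz0 (not_le.1 hz2).le
        rw [hlz] at h4
        have h5 : W ≤ 1 * (Real.log X / c) := by
          rw [h2, div_eq_mul_one_div]
          exact mul_le_mul (Me_le_one z) h3 (by positivity) (by norm_num)
        have h6 : Real.log X / c ≤ Real.log 2 / (c * δ) := by
          rw [div_le_div_iff₀ hc (by positivity)]
          calc Real.log X * (c * δ) = c * (δ * Real.log X) := by ring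
            _ ≤ c * Real.log 2 := mul_le_mul_of_nonneg_left h4 hc.le
            _ = Real.log 2 * c := by ring
        have h7 : 0 ≤ C / (c * δ) := by positivity
        linarith
    · have h1 : PP z X = ∅ := by
        unfold PP
        rw [Finset.filter_eq_empty_iff]
        intro p hp
        rw [Finset.mem_Icc] at hp
        rintro ⟨_, h2⟩
        have h3 : (p : ℝ) ≤ X := (Nat.cast_le.2 hp.2).trans (Nat.floor_le hX0.le)
        linarith [not_le.1 hzX]
      rw [hW, h1, Finset.prod_empty]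
      exact hM1
  have inv1 : ∀ p ∈ PP z X, 1 ≤ (1 - 1 / (p : ℝ))⁻¹ := by
    intro p hp
    have h1 := fac_pos (prP p hp)
    have h2 : (0 : ℝ) ≤ 1 / (p : ℝ) := by positivity
    exact (one_le_inv₀ h1).2 (by linarith)
  have hsubW : ∀ S ⊆ PP z X, ∏ p ∈ S, (1 - 1 / (p : ℝ))⁻¹ ≤ M := by
    intro S hS
    refine le_trans ?_ hWM
    rw [hW, ← Finset.prod_sdiff hS]
    have h1 : 1 ≤ ∏ p ∈ PP z X \ S, (1 - 1 / (p : ℝ))⁻¹ := by
      calc (1 : ℝ) = ∏ _p ∈ PP z X \ S, (1 : ℝ) := Finset.prod_const_one.symm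
        _ ≤ ∏ p ∈ PP z X \ S, (1 - 1 / (p : ℝ))⁻¹ :=
          Finset.prod_le_prod (fun _ _ => zero_le_one)
            fun p hp => inv1 p (Finset.sdiff_subset hp)
    have h2 : 0 ≤ ∏ p ∈ S, (1 - 1 / (p : ℝ))⁻¹ :=
      Finset.prod_nonneg fun p hp => zero_le_one.trans (inv1 p (hS hp))
    nlinarith
  have h3a : ∀ S ⊆ PP z X, ∏ p ∈ S, (1 + 3 * (1 / (p : ℝ))) ≤ M ^ 3 := by
    intro S hS
    calc ∏ p ∈ S, (1 + 3 * (1 / (p : ℝ))) ≤ ∏ p ∈ S, ((1 - 1 / (p : ℝ))⁻¹) ^ 3 := by
          refine Finset.prod_le_prod (fun p _ => by positivity) fun p hp => ?_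
          have h1 := fac_pos (prP p (hS hp))
          have h2 : (0 : ℝ) ≤ 1 / (p : ℝ) := by positivity
          have h3 : 1 + 1 / (p : ℝ) ≤ (1 - 1 / (p : ℝ))⁻¹ := by
            rw [← one_div, le_div_iff₀ h1]
            nlinarith
          have h4 : (1 + 1 / (p : ℝ)) ^ 3 ≤ ((1 - 1 / (p : ℝ))⁻¹) ^ 3 :=
            pow_le_pow_left₀ (by positivity) h3 3
          have h5 : 1 + 3 * (1 / (p : ℝ)) ≤ (1 + 1 / (p : ℝ)) ^ 3 := by
            have : (1 + 1 / (p : ℝ)) ^ 3 = 1 + 3 * (1 / (p : ℝ)) + 3 * (1 / (p : ℝ)) ^ 2 +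
              (1 / (p : ℝ)) ^ 3 := by ring
            rw [this]
            have h6 : 0 ≤ (1 / (p : ℝ)) ^ 2 := by positivity
            have h7 : 0 ≤ (1 / (p : ℝ)) ^ 3 := by positivity
            linarith
          linarith
      _ = (∏ p ∈ S, (1 - 1 / (p : ℝ))⁻¹) ^ 3 := Finset.prod_pow _ _ _
      _ ≤ M ^ 3 := by
          apply pow_le_pow_left₀ _ (hsubW S hS)
          exact Finset.prod_nonneg fun p hp => zero_le_one.trans (inv1 p (hS hp))
  have hMM : M ≤ M ^ 3 := by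
    calc M = M ^ 1 := (pow_one M).symm
      _ ≤ M ^ 3 := pow_le_pow_right₀ hM1 (by norm_num)
  have hM3 : 0 ≤ M ^ 3 := by positivity
  have gpos : ∀ S : Finset ℕ, 0 ≤ ∏ p ∈ S, (1 / (p : ℝ)) := fun S =>
    Finset.prod_nonneg fun p _ => by positivity
  refine ⟨?_, ?_, ?_, ?_⟩
  · calc ∑ u ∈ RS z X, ∑ v ∈ RS z X, 1 / (Nat.lcm u v : ℝ)
        ≤ ∑ u ∈ RS z X, ∑ v ∈ RS z X,
          ∏ p ∈ u.primeFactors ∪ v.primeFactors, (1 / (p : ℝ)) :=
          Finset.sum_le_sum fun u hu => Finset.sum_le_sum fun v hv => lcm_le hu hv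
      _ ≤ ∑ u ∈ RS z X, ∑ T ∈ (PP z X).powerset,
          ∏ p ∈ u.primeFactors ∪ T, (1 / (p : ℝ)) :=
          Finset.sum_le_sum fun u _ =>
            sum_RS_le z X (fun T => ∏ p ∈ u.primeFactors ∪ T, (1 / (p : ℝ)))
              fun S _ => gpos _
      _ ≤ ∑ S ∈ (PP z X).powerset, ∑ T ∈ (PP z X).powerset,
          ∏ p ∈ S ∪ T, (1 / (p : ℝ)) :=
          sum_RS_le z X (fun S => ∑ T ∈ (PP z X).powerset, ∏ p ∈ S ∪ T, (1 / (p : ℝ)))
            fun S _ => Finset.sum_nonneg fun T _ => gpos _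
      _ = ∏ p ∈ PP z X, (1 + 3 * (1 / (p : ℝ))) := pairs _ _
      _ ≤ M ^ 3 := h3a _ (Finset.Subset.refl _)
      _ ≤ 3 * M ^ 3 := by linarith
  · intro q hq
    have hq0 : (0 : ℝ) < q := by exact_mod_cast hq.pos
    by_cases hqP : q ∈ PP z X
    · have hterm : ∀ u ∈ RS z X, ∀ v ∈ RS z X,
          (if q ∣ Nat.lcm u v then 1 / (Nat.lcm u v : ℝ) else 0) ≤
          if q ∈ u.primeFactors ∪ v.primeFactors then
            ∏ p ∈ u.primeFactors ∪ v.primeFactors, (1 / (p : ℝ)) else 0 := by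
        intro u hu v hv
        by_cases hd : q ∣ Nat.lcm u v
        · have h1 : q ∈ u.primeFactors ∪ v.primeFactors := by
            rw [← pf_lcm (mem_RS hu).1 (mem_RS hv).1]
            exact Nat.mem_primeFactors.2 ⟨hq, hd,
              (Nat.lcm_pos (Nat.pos_of_ne_zero (mem_RS hu).1)
                (Nat.pos_of_ne_zero (mem_RS hv).1)).ne'⟩
          rw [if_pos hd, if_pos h1]
          exact lcm_le hu hv
        · rw [if_neg hd]
          split_ifs
          · exact gpos _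
          · exact le_refl _
      have hnn : ∀ S : Finset ℕ, (0 : ℝ) ≤ if q ∈ S then ∏ p ∈ S, (1 / (p : ℝ)) else 0 := by
        intro S
        split_ifs
        · exact gpos _
        · exact le_refl _
      calc ∑ u ∈ RS z X, ∑ v ∈ RS z X,
          (if q ∣ Nat.lcm u v then 1 / (Nat.lcm u v : ℝ) else 0)
          ≤ ∑ u ∈ RS z X, ∑ v ∈ RS z X,
            (if q ∈ u.primeFactors ∪ v.primeFactors then
              ∏ p ∈ u.primeFactors ∪ v.primeFactors, (1 / (p : ℝ)) else 0) :=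
            Finset.sum_le_sum fun u hu => Finset.sum_le_sum fun v hv => hterm u hu v hv
        _ ≤ ∑ u ∈ RS z X, ∑ T ∈ (PP z X).powerset,
            (if q ∈ u.primeFactors ∪ T then ∏ p ∈ u.primeFactors ∪ T, (1 / (p : ℝ)) else 0) :=
            Finset.sum_le_sum fun u _ =>
              sum_RS_le z X (fun T => if q ∈ u.primeFactors ∪ T then
                ∏ p ∈ u.primeFactors ∪ T, (1 / (p : ℝ)) else 0) fun S _ => hnn _
        _ ≤ ∑ S ∈ (PP z X).powerset, ∑ T ∈ (PP z X).powerset,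
            (if q ∈ S ∪ T then ∏ p ∈ S ∪ T, (1 / (p : ℝ)) else 0) :=
            sum_RS_le z X (fun S => ∑ T ∈ (PP z X).powerset,
              (if q ∈ S ∪ T then ∏ p ∈ S ∪ T, (1 / (p : ℝ)) else 0))
              fun S _ => Finset.sum_nonneg fun T _ => hnn _
        _ = 3 * (1 / (q : ℝ)) * ∏ p ∈ (PP z X).erase q, (1 + 3 * (1 / (p : ℝ))) := by
            have h1 := pairs_mem (fun p => 1 / (p : ℝ)) ((PP z X).erase q) q
              (Finset.notMem_erase _ _)
            rw [Finset.insert_erase hqP] at h1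
            exact h1
        _ ≤ 3 * (1 / (q : ℝ)) * M ^ 3 := by
            apply mul_le_mul_of_nonneg_left _ (by positivity)
            exact h3a _ (Finset.erase_subset _ _)
        _ = 3 * M ^ 3 / q := by ring
    · have h0 : ∑ u ∈ RS z X, ∑ v ∈ RS z X,
          (if q ∣ Nat.lcm u v then 1 / (Nat.lcm u v : ℝ) else 0) = 0 := by
        refine Finset.sum_eq_zero fun u hu => Finset.sum_eq_zero fun v hv => ?_
        rw [if_neg]
        intro hd
        apply hqP
        have h1 : q ∈ u.primeFactors ∪ v.primeFactors := by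
          rw [← pf_lcm (mem_RS hu).1 (mem_RS hv).1]
          exact Nat.mem_primeFactors.2 ⟨hq, hd,
            (Nat.lcm_pos (Nat.pos_of_ne_zero (mem_RS hu).1)
              (Nat.pos_of_ne_zero (mem_RS hv).1)).ne'⟩
        rcases Finset.mem_union.1 h1 with h | h
        · exact pf_sub hu h
        · exact pf_sub hv h
      rw [h0]
      positivity
  · intro u hu
    have h1 := tot_eq (mem_RS hu).2.2.1
    have h2 : (u : ℝ) = (∏ p ∈ u.primeFactors, (1 - 1 / (p : ℝ))⁻¹) * u.totient := by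
      rw [h1, ← Finset.prod_mul_distrib]
      have h3 : (u : ℝ) = ∏ p ∈ u.primeFactors, (p : ℝ) := by
        rw [← Nat.cast_prod, Nat.prod_primeFactors_of_squarefree (mem_RS hu).2.2.1]
      refine h3.trans (Finset.prod_congr rfl fun p hp => ?_)
      have hp1 : (1 : ℝ) < p := by exact_mod_cast (Nat.prime_of_mem_primeFactors hp).one_lt
      have hp2 : (p : ℝ) - 1 ≠ 0 := by linarith
      have hp3 : (p : ℝ) ≠ 0 := by linarith
      field_simp
    have h4 : (0 : ℝ) ≤ u.totient := Nat.cast_nonneg _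
    calc (u : ℝ) = (∏ p ∈ u.primeFactors, (1 - 1 / (p : ℝ))⁻¹) * u.totient := h2
      _ ≤ M * u.totient := mul_le_mul_of_nonneg_right (hsubW _ (pf_sub hu)) h4
      _ ≤ 3 * M ^ 3 * u.totient := mul_le_mul_of_nonneg_right (by linarith) h4
  · have h1 : ∀ u ∈ RS z X, 1 / (u.totient : ℝ) =
        ∏ p ∈ u.primeFactors, (1 / ((p : ℝ) - 1)) := by
      intro u hu
      rw [tot_eq (mem_RS hu).2.2.1, Finset.prod_div_distrib, Finset.prod_const_one]
    rw [Finset.sum_congr rfl h1]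
    have hp1 : ∀ p ∈ PP z X, (1 : ℝ) < p := fun p hp => by
      exact_mod_cast (prP p hp).one_lt
    calc ∑ u ∈ RS z X, ∏ p ∈ u.primeFactors, (1 / ((p : ℝ) - 1))
        ≤ ∑ S ∈ (PP z X).powerset, ∏ p ∈ S, (1 / ((p : ℝ) - 1)) :=
          sum_RS_le z X (fun S => ∏ p ∈ S, (1 / ((p : ℝ) - 1))) fun S hS =>
            Finset.prod_nonneg fun p hp => by
              have := hp1 p (hS hp)
              have h2 : (0 : ℝ) < (p : ℝ) - 1 := by linarith
              positivity
      _ = ∏ p ∈ PP z X, (1 + 1 / ((p : ℝ) - 1)) := (Finset.prod_one_add _).symm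
      _ = W := by
          rw [hW]
          refine Finset.prod_congr rfl fun p hp => ?_
          have h2 := hp1 p hp
          have h3 : (p : ℝ) - 1 ≠ 0 := by linarith
          have h4 : (p : ℝ) ≠ 0 := by linarith
          field_simp
          ring
      _ ≤ M := hWM
      _ ≤ 3 * M ^ 3 := by linarith

end Pool.Agent.H35.MTP
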